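import Pool.Agent.L5helper68.DH.On

/-!
# Deciding diffeomorphism of homeomorphic 4-manifolds: families with twins (MP_d40431_gt)

Inputs are pairs of triangulated compact 4-manifolds (`Code`, `IsManifold`: the links of the vertices are
PL 3-spheres or PL 3-balls; with or without boundary, not necessarily connected) that are homeomorphic.
Diffeomorphic means PL homeomorphic, which is the same in dimension 4. `P` is a class of complexes, for
instance all complexes, or the closed manifolds with at most two components, or the orientable ones
among them. `Q1On P`: some partial recursive function halts on all pairs of homeomorphic 4-manifolds in `P`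
and tells whether they are diffeomorphic. For the class of all complexes this is the question.

Let `Y n`, `Y' n` be computable families of connected 4-manifolds in `P` with `Y n` homeomorphic to `Y' n`
for all indices `n` in a set `D` (not necessarily decidable). Nothing is assumed about `Y m` and `Y n` for
`m ≠ n`: they need not be homeomorphic. The disjoint unions `Y m ⊔ Y' n` and `Y' m ⊔ Y n` are in `P`.

Theorem. If the question has a positive answer for the inputs in `P`, the following is decidable for `m`,
`n` in `D`:
1. whether `Y n` and `Y' n` are diffeomorphic;
2. whether `Y m` and `Y' m` are not diffeomorphic, but `Y m` and `Y n` are diffeomorphic, and `Y' m` and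
   `Y' n` are diffeomorphic.
Consequently
3. the question has a negative answer for the inputs in `P`, if for some `n₀` in such a family the
   manifolds `Y n₀`, `Y' n₀` are not diffeomorphic, `Y n ≅ Y n₀` implies `Y' n ≅ Y' n₀`, and it is undecidable
   whether `Y n ≅ Y n₀`.

So the promise that the two given manifolds are homeomorphic does not help: an algorithm would recognize
`E = Y n₀` without any promise in every such family.

Proof. The disjoint unions `Y m ⊔ Y' n` and `Y' m ⊔ Y n` are homeomorphic, and they are diffeomorphic if and
only if `Y m ≅ Y' m` and `Y n ≅ Y' n`, or `Y m ≅ Y n` and `Y' m ≅ Y' n`.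

Remarks (not in Lean). (a) The hypotheses of 3 are satisfied, by published theorems, so that the answer to
the question is negative for closed manifolds with at most two components. Let `G n` be a computable family
of finite presentations with the same numbers of generators and relators such that it is undecidable whether
the group is trivial (Adian, Rabin), and let `M n` be the closed 4-manifold of Markov: the result of surgery
on `#g (S^1 x S^3)` along the relators and `g` trivial loops, stably parallelizable (so spin of signature 0),
with fundamental group `G n`, and diffeomorphic to `#r (S^2 x S^2)` if the group is trivial. Put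
`Y n = M n # RP^4 # K3` and `Y' n = M n # RP^4 # 11 (S^2 x S^2)`. They are homeomorphic by Freedman: `K3` is
homeomorphic to `E8 # E8 # 3 (S^2 x S^2)`, a summand `E8` may be replaced by `-E8` in the sum with a
non-orientable manifold, and `E8 # -E8` is homeomorphic to `8 (S^2 x S^2)`. They are not diffeomorphic: their
classes in the bordism group `Ω_4^{Pin+} = ℤ/16` are `±9` and `±1`. If the group `G n` is trivial, then
`M n ≅ M n₀`, `Y n ≅ Y n₀`, `Y' n ≅ Y' n₀`, where `n₀` is a trivial presentation; if not, then
the fundamental group `G n * ℤ/2` of `Y n` is not that of `Y n₀`.

(b) Suppose that there is an exotic 4-sphere `Σ`. Let `D` be the set of all codes of closed connected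
orientable 4-manifolds, `Y n = n`, `Y' n = n # Σ`, `n₀ = S^4`. If the question has a positive answer for closed
orientable manifolds with at most two components, then it is decidable whether a closed orientable connected
4-manifold is diffeomorphic to `S^4`.
-/

set_option autoImplicit false

open Pool.Agent.L5helper68.DH

namespace Pool.Agent.Results.MP_d40431_gt.TwinFamilies

/-- **Families with twins.** An algorithm that decides whether two homeomorphic 4-manifolds in `P` are
diffeomorphic would also decide, in all computable families of connected 4-manifolds `Y n` with
homeomorphic partners `Y' n` such that the disjoint unions are in `P`, whether `Y n` and `Y' n` are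
diffeomorphic, and whether `Y m ≅ Y n` and `Y' m ≅ Y' n` if `Y m` and `Y' m` are not diffeomorphic, although
`Y m` and `Y n` need not be homeomorphic. Hence there is no such algorithm if one manifold `Y n₀` that is
not diffeomorphic to its partner cannot be recognized in one such family. -/
theorem result (P : Code → Prop) (α : Type) [Primcodable α] (D : Set α) (Y Y' : α → Code)
    (hY : TwinsOn P D Y Y') :
    (Q1On P →
      DecidableOn D (fun n => Diffeomorphic (Y n) (Y' n)) ∧
      DecidableOn (D ×ˢ D) (fun p => ¬ Diffeomorphic (Y p.1) (Y' p.1) ∧
        Diffeomorphic (Y p.1) (Y p.2) ∧ Diffeomorphic (Y' p.1) (Y' p.2))) ∧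
    ∀ n₀ ∈ D, ¬ Diffeomorphic (Y n₀) (Y' n₀) →
      (∀ n ∈ D, Diffeomorphic (Y n) (Y n₀) → Diffeomorphic (Y' n) (Y' n₀)) →
      ¬ DecidableOn D (fun n => Diffeomorphic (Y n) (Y n₀)) → ¬ Q1On P :=
  ⟨fun h => ⟨on_pairs h hY, on_exotic h hY⟩,
    fun _ hn h0 hc hu h => hu (on_recognize h hY hn h0 hc)⟩

end Pool.Agent.Results.MP_d40431_gt.TwinFamilies
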